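import Pool.Agent.H86.WP.Rad
import Pool.Agent.H86.WP.Hyp
import Pool.Agent.H67.RB3.Sch4
import Pool.Agent.H51.HC.Fin

/-!
# H67-HS-HYP: surjective homomorphisms to a group `H` with a quotient `R` by a hypercentral subgroup (MP_b39724_nt)

* `rads`: `f : H → R` surjective with the fibre bound `FB`, `RBs` for `R` with `θ ≥ 1`: then `RBs` for `H` with the same `θ` (as `H86/WP/Rad.lean`).
* `rbs_quo`: `ph : G → H` surjective, `U` a subgroup of `G` of index `m` with `ker ph ≤ core(U) ≤ Z_j(G)`: `RBs K QBar H (max 1 (m (m - 1) / 2))`, `K` totally complex.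
* `rbs_cr`: the counting hypothesis of theorem HT if such a `U` exists and `m (m - 1) ind(G) < 2 ind(g)` for all `g` outside `T`.
-/

set_option autoImplicit false

open scoped NumberField
open IsDedekindDomain NumberField H38.ML H63.MA H38.WM H86.WP

noncomputable section

namespace H67.HS

variable {K : IntermediateField ℚ QBar} [NumberField K]

theorem rads {G H : Type} [Group G] [Group H] (f : G →* H) (hfs : Function.Surjective f) (θ : ℝ)
    (hθ : 1 ≤ θ) (hH : H86.HS.RBs K QBar H θ) (hf : ∀ Q : DP K QBar, FB Q f) :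
    H86.HS.RBs K QBar G θ := by
  classical
  intro Q ε hε
  obtain ⟨C₀, A, hFB⟩ := hf Q
  obtain ⟨Ch, hCh⟩ := hH Q (ε / 4) (by positivity)
  have hCh0 : 0 ≤ Ch := by
    have h := hCh 1 le_rfl ∅ (fun φ hφ => absurd hφ (Finset.notMem_empty φ))
    rwa [Finset.card_empty, Nat.cast_zero, Real.one_rpow, mul_one] at h
  obtain ⟨Cs, hCs0, hCs⟩ := sumT K A ε (Nat.cast_nonneg _) hε
  obtain ⟨Cw, hCw0, hCw⟩ := wgt K A (ε / 2) (by positivity)
  obtain ⟨Cd, hCd0, hCd⟩ := dya Ch (θ + ε / 2) (θ + ε / 4) hCh0 (by linarith) (by linarith)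
  refine ⟨C₀ * (Cw * Cd * Cs), fun Z hZ Rs hRs => ?_⟩
  have hcf : ∀ ρ ∈ Rs, Cf Q Z ρ := fun ρ hρ => ⟨(hRs ρ hρ).1, (hRs ρ hρ).2.2⟩
  -- the two sums
  let g : (Gal(QBar/K) →* H) → ℝ := fun φ => (A : ℝ) ^ (tt Q φ).card / rr Q φ ^ (θ + ε)
  let h : Finset (Pl K) → ℝ := fun T => (A : ℝ) ^ T.card / (∏ l ∈ T, (nm l : ℝ)) ^ (θ + ε)
  have hg0 : ∀ φ, 0 ≤ g φ := fun φ =>
    div_nonneg (by positivity) (Real.rpow_nonneg (zero_le_one.trans (rr_one Q φ)) _)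
  have hh0 : ∀ T, 0 ≤ h T := fun T =>
    div_nonneg (by positivity) (Real.rpow_nonneg (zero_le_one.trans (prod_one T)) _)
  let I₁ : Finset (Gal(QBar/K) →* H) := Rs.image fun ρ => f.comp ρ
  have hI₁ : ∀ φ ∈ I₁, FT φ ∧ Function.Surjective φ := by
    intro φ hφ
    obtain ⟨ρ, hρ, rfl⟩ := Finset.mem_image.1 hφ
    exact ⟨H86.WP.ft_comp f (hRs ρ hρ).1, hfs.comp (hRs ρ hρ).2.1⟩
  have hsum₁ : ∑ φ ∈ I₁, g φ ≤ Cw * Cd := by
    have h1 : ∑ φ ∈ I₁, rr Q φ ^ (-(θ + ε / 2)) ≤ Cd := by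
      refine hCd I₁ (rr Q) (fun φ _ => rr_one Q φ) fun X hX J hJ hJX => ?_
      exact hCh X hX J fun φ hφ => ⟨(hI₁ φ (hJ hφ)).1, (hI₁ φ (hJ hφ)).2,
        ((cf_iff Q X (hI₁ φ (hJ hφ)).1).2 (hJX φ hφ)).2⟩
    have h2 : ∀ φ ∈ I₁, g φ ≤ Cw * rr Q φ ^ (-(θ + ε / 2)) := by
      intro φ _
      have h3 : 0 < rr Q φ := lt_of_lt_of_le one_pos (rr_one Q φ)
      have h4 := hCw (tt Q φ)
      change (A : ℝ) ^ (tt Q φ).card / rr Q φ ^ (θ + ε) ≤ _
      rw [div_le_iff₀ (Real.rpow_pos_of_pos h3 _), mul_assoc, ← Real.rpow_add h3]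
      refine h4.trans (le_of_eq ?_)
      change Cw * rr Q φ ^ (ε / 2) = _
      congr 2
      ring
    calc ∑ φ ∈ I₁, g φ ≤ ∑ φ ∈ I₁, Cw * rr Q φ ^ (-(θ + ε / 2)) := Finset.sum_le_sum h2
      _ = Cw * ∑ φ ∈ I₁, rr Q φ ^ (-(θ + ε / 2)) := by rw [Finset.mul_sum]
      _ ≤ Cw * Cd := mul_le_mul_of_nonneg_left h1 hCw0
  let I₂ : Finset (Finset (Pl K)) := Rs.image fun ρ => tt Q ρ \ tt Q (f.comp ρ)
  have hsum₂ : ∑ T ∈ I₂, h T ≤ Cs := by
    refine le_trans (Finset.sum_le_sum fun T _ => ?_) (hCs I₂)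
    have h1 := prod_one T
    have h2 : 0 < ∏ l ∈ T, (nm l : ℝ) := lt_of_lt_of_le one_pos h1
    change (A : ℝ) ^ T.card / (∏ l ∈ T, (nm l : ℝ)) ^ (θ + ε) ≤
      (A : ℝ) ^ T.card / (∏ l ∈ T, (nm l : ℝ)) ^ (1 + ε)
    exact div_le_div_of_nonneg_left (by positivity) (Real.rpow_pos_of_pos h2 _)
      (Real.rpow_le_rpow_of_exponent_le h1 (by linarith))
  -- the labels
  let lab : (Gal(QBar/K) →* G) → (Gal(QBar/K) →* H) × Finset (Pl K) := fun ρ =>
    (f.comp ρ, tt Q ρ \ tt Q (f.comp ρ))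
  have hsub : ∀ ρ ∈ Rs, tt Q (f.comp ρ) ⊆ tt Q ρ := by
    intro ρ hρ l hl
    rw [mem_tt Q (hRs ρ hρ).1]
    exact rm_comp Q f ((mem_tt Q (H86.WP.ft_comp f (hRs ρ hρ).1) l).1 hl)
  have hfib : ∀ b ∈ Rs.image lab, (((Rs.filter fun ρ => lab ρ = b).card : ℕ) : ℝ) ≤
      C₀ * Z ^ (θ + ε) * (g b.1 * h b.2) := by
    intro b hb
    obtain ⟨ρ₀, hρ₀, rfl⟩ := Finset.mem_image.1 hb
    have h1 : (Rs.filter fun ρ => lab ρ = lab ρ₀).card ≤ C₀ * A ^ (tt Q ρ₀).card := by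
      refine hFB (tt Q ρ₀) (f.comp ρ₀) _ fun ρ hρ => ?_
      obtain ⟨h2, h3⟩ := Finset.mem_filter.1 hρ
      have h4 : f.comp ρ = f.comp ρ₀ := congrArg Prod.fst h3
      have h5 : tt Q ρ \ tt Q (f.comp ρ) = tt Q ρ₀ \ tt Q (f.comp ρ₀) := congrArg Prod.snd h3
      refine ⟨h4, (hRs ρ h2).1, fun l hl => ?_⟩
      have h6 : tt Q ρ = tt Q ρ₀ := by
        rw [← Finset.sdiff_union_of_subset (hsub ρ h2), h5, h4,
          Finset.sdiff_union_of_subset (hsub ρ₀ hρ₀)]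
      rw [← h6]
      exact (mem_tt Q (hRs ρ h2).1 l).2 hl
    have h2 : (A : ℝ) ^ (tt Q ρ₀).card ≤ Z ^ (θ + ε) * (g (f.comp ρ₀) *
        h (tt Q ρ₀ \ tt Q (f.comp ρ₀))) := by
      set T₁ := tt Q (f.comp ρ₀) with hT₁
      set T₂ := tt Q ρ₀ \ T₁ with hT₂
      have h3 : tt Q ρ₀ = T₂ ∪ T₁ := (Finset.sdiff_union_of_subset (hsub ρ₀ hρ₀)).symm
      have h4 : Disjoint T₂ T₁ := Finset.sdiff_disjoint
      have h5 : (tt Q ρ₀).card = T₂.card + T₁.card := by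
        rw [h3, Finset.card_union_of_disjoint h4]
      have h6 : (∏ l ∈ T₂, (nm l : ℝ)) * ∏ l ∈ T₁, (nm l : ℝ) ≤ Z := by
        rw [← Finset.prod_union h4, ← h3]
        exact (cf_iff Q Z (hRs ρ₀ hρ₀).1).1 (hcf ρ₀ hρ₀)
      have hP₁ : 0 < ∏ l ∈ T₁, (nm l : ℝ) := lt_of_lt_of_le one_pos (prod_one T₁)
      have hP₂ : 0 < ∏ l ∈ T₂, (nm l : ℝ) := lt_of_lt_of_le one_pos (prod_one T₂)
      have h7 : ((∏ l ∈ T₂, (nm l : ℝ)) * ∏ l ∈ T₁, (nm l : ℝ)) ^ (θ + ε) ≤ Z ^ (θ + ε) :=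
        Real.rpow_le_rpow (by positivity) h6 (by linarith)
      rw [Real.mul_rpow hP₂.le hP₁.le] at h7
      have h8 : g (f.comp ρ₀) * h T₂ = (A : ℝ) ^ (tt Q ρ₀).card /
          ((∏ l ∈ T₂, (nm l : ℝ)) ^ (θ + ε) * (∏ l ∈ T₁, (nm l : ℝ)) ^ (θ + ε)) := by
        change (A : ℝ) ^ T₁.card / (∏ l ∈ T₁, (nm l : ℝ)) ^ (θ + ε) *
          ((A : ℝ) ^ T₂.card / (∏ l ∈ T₂, (nm l : ℝ)) ^ (θ + ε)) = _
        rw [h5, pow_add, div_mul_div_comm]
        congr 1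
        · ring
        · ring
      rw [h8, ← mul_div_assoc, le_div_iff₀ (by positivity), mul_comm]
      exact mul_le_mul_of_nonneg_right h7 (by positivity)
    calc (((Rs.filter fun ρ => lab ρ = lab ρ₀).card : ℕ) : ℝ) ≤ C₀ * (A : ℝ) ^ (tt Q ρ₀).card := by
          exact_mod_cast h1
      _ ≤ C₀ * (Z ^ (θ + ε) * (g (f.comp ρ₀) * h (tt Q ρ₀ \ tt Q (f.comp ρ₀)))) :=
          mul_le_mul_of_nonneg_left h2 (Nat.cast_nonneg _)
      _ = C₀ * Z ^ (θ + ε) * (g (f.comp ρ₀) * h (tt Q ρ₀ \ tt Q (f.comp ρ₀))) := by ring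
  have hcard : (Rs.card : ℝ) = ∑ b ∈ Rs.image lab, (((Rs.filter fun ρ => lab ρ = b).card : ℕ) : ℝ) := by
    rw [Finset.card_eq_sum_card_image lab Rs]
    push_cast
    rfl
  have hsubI : Rs.image lab ⊆ I₁ ×ˢ I₂ := by
    intro b hb
    obtain ⟨ρ, hρ, rfl⟩ := Finset.mem_image.1 hb
    exact Finset.mem_product.2 ⟨Finset.mem_image_of_mem _ hρ, Finset.mem_image_of_mem _ hρ⟩
  have hZ0 : 0 ≤ Z ^ (θ + ε) := Real.rpow_nonneg (by linarith) _
  calc (Rs.card : ℝ) = ∑ b ∈ Rs.image lab, (((Rs.filter fun ρ => lab ρ = b).card : ℕ) : ℝ) := hcard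
    _ ≤ ∑ b ∈ Rs.image lab, C₀ * Z ^ (θ + ε) * (g b.1 * h b.2) := Finset.sum_le_sum hfib
    _ ≤ ∑ b ∈ I₁ ×ˢ I₂, C₀ * Z ^ (θ + ε) * (g b.1 * h b.2) := by
        refine Finset.sum_le_sum_of_subset_of_nonneg hsubI fun b _ _ => ?_
        exact mul_nonneg (mul_nonneg (Nat.cast_nonneg _) hZ0) (mul_nonneg (hg0 _) (hh0 _))
    _ = C₀ * Z ^ (θ + ε) * ((∑ φ ∈ I₁, g φ) * ∑ T ∈ I₂, h T) := by
        rw [← Finset.mul_sum, Finset.sum_mul_sum, Finset.sum_product]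
    _ ≤ C₀ * Z ^ (θ + ε) * ((Cw * Cd) * Cs) := by
        refine mul_le_mul_of_nonneg_left ?_ (mul_nonneg (Nat.cast_nonneg _) hZ0)
        exact mul_le_mul hsum₁ hsum₂ (Finset.sum_nonneg fun T _ => hh0 T) (by positivity)
    _ = C₀ * (Cw * Cd * Cs) * Z ^ (θ + ε) := by ring

theorem rbs_mono {H : Type} [Group H] {θ θ' : ℝ} (h : H86.HS.RBs K QBar H θ) (hle : θ ≤ θ') :
    H86.HS.RBs K QBar H θ' := by
  intro Q ε hε
  obtain ⟨C, hC⟩ := h Q ε hε
  have hC0 : 0 ≤ C := by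
    have h := hC 1 le_rfl ∅ (fun φ hφ => absurd hφ (Finset.notMem_empty φ))
    rwa [Finset.card_empty, Nat.cast_zero, Real.one_rpow, mul_one] at h
  refine ⟨C, fun Y hY Rs hRs => (hC Y hY Rs hRs).trans (mul_le_mul_of_nonneg_left ?_ hC0)⟩
  exact Real.rpow_le_rpow_of_exponent_le hY (by linarith)

theorem rbs_quo [IsTotallyComplex K] {G H : Type} [Group G] [Finite G] [Group H] [Finite H]
    (ph : G →* H) (hs : Function.Surjective ph) (j : ℕ) (U : Subgroup G)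
    (h1 : ph.ker ≤ U.normalCore) (h2 : U.normalCore ≤ Subgroup.upperCentralSeries G j) :
    H86.HS.RBs K QBar H (max 1 (((U.index : ℝ) * ((U.index : ℝ) - 1)) / 2)) := by
  let q : G →* G ⧸ U.normalCore := QuotientGroup.mk' U.normalCore
  have hqk : q.ker = U.normalCore := QuotientGroup.ker_mk' _
  have hqs : Function.Surjective q := QuotientGroup.mk'_surjective _
  have hle : ph.ker ≤ q.ker := by
    rw [hqk]
    exact h1
  obtain ⟨f, hf⟩ : ∃ f : H →* G ⧸ U.normalCore, ∀ x, f (ph x) = q x := by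
    refine ⟨(QuotientGroup.lift ph.ker q hle).comp
      (QuotientGroup.quotientKerEquivOfSurjective ph hs).symm.toMonoidHom, fun x => ?_⟩
    have h3 : (QuotientGroup.quotientKerEquivOfSurjective ph hs).symm (ph x) =
        (x : G ⧸ ph.ker) := by
      rw [MulEquiv.symm_apply_eq]
      rfl
    show QuotientGroup.lift ph.ker q hle
      ((QuotientGroup.quotientKerEquivOfSurjective ph hs).symm (ph x)) = q x
    rw [h3]
    rfl
  have hfs : Function.Surjective f := by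
    intro y
    obtain ⟨x, rfl⟩ := hqs y
    exact ⟨ph x, hf x⟩
  have hker : f.ker ≤ Subgroup.upperCentralSeries H j := by
    intro y hy
    obtain ⟨x, rfl⟩ := hs y
    have h3 : x ∈ Subgroup.upperCentralSeries G j := by
      refine h2 ?_
      rw [← hqk, MonoidHom.mem_ker, ← hf x]
      exact hy
    exact Subgroup.upperCentralSeries.map hs j ⟨x, h3, rfl⟩
  have hidx : (U.map q).index = U.index := by
    refine Subgroup.index_map_eq U hqs ?_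
    rw [hqk]
    exact Subgroup.normalCore_le U
  have hcore : (U.map q).normalCore = ⊥ := by
    rw [eq_bot_iff]
    intro y hy
    obtain ⟨x, rfl⟩ := hqs y
    rw [Subgroup.mem_bot, ← MonoidHom.mem_ker, hqk]
    intro b
    have h3 := hy (q b)
    rw [← map_mul, ← map_inv, ← map_mul] at h3
    obtain ⟨u, hu, hux⟩ := h3
    have h4 : (u)⁻¹ * (b * x * b⁻¹) ∈ q.ker := by
      rw [MonoidHom.mem_ker, map_mul, map_inv, hux, inv_mul_cancel]
    rw [hqk] at h4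
    have h5 := U.mul_mem hu (Subgroup.normalCore_le U h4)
    rwa [mul_inv_cancel_left] at h5
  have h3 := H67.RB3.rbs_core (K := K) (G ⧸ U.normalCore) (U.map q) hcore
  rw [hidx] at h3
  refine rads f hfs _ (le_max_left _ _) (rbs_mono h3 (le_max_right _ _)) fun Q => ?_
  exact hyp Q j (Nat.card f.ker) H _ f le_rfl hker

theorem rbs_cr {n : ℕ} (hn : 2 ≤ n) (G : Subgroup (Equiv.Perm (Fin n)))
    (hG : MulAction.IsPretransitive G (Fin n)) (j : ℕ) (U : Subgroup G)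
    (h1 : Subgroup.closure (H51.PF.Li G) ≤ U.normalCore)
    (h2 : U.normalCore ≤ Subgroup.upperCentralSeries G j)
    (hr : ∀ g : G, g ∉ Subgroup.closure (H51.PF.Li G) →
      U.index * (U.index - 1) * Spec.indG G < 2 * Spec.ind (g : Equiv.Perm (Fin n)))
    (K : IntermediateField ℚ (AlgebraicClosure ℚ)) [NumberField K] (z : K)
    (hz : IsPrimitiveRoot z 3) :
    ∃ θ : ℝ, 0 ≤ θ ∧
      (∀ g : G, g ∉ Subgroup.closure (H51.PF.Li G) →
        θ * (Spec.indG G : ℝ) < (Spec.ind (g : Equiv.Perm (Fin n)) : ℝ)) ∧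
      ∀ (H : Type) [Group H] [Finite H] (ph : G →* H), Function.Surjective ph →
        ph.ker = Subgroup.closure (H51.PF.Li G) → H86.HS.RBs K QBar H θ := by
  obtain ⟨-, -, hmin, -, -⟩ := H38.BG.pidx_pos hn G hG
  have hU1 : 1 ≤ U.index := Nat.one_le_iff_ne_zero.2 Subgroup.index_ne_zero_of_finite
  have htc : IsTotallyComplex K := NumberField.nrRealPlaces_eq_zero_iff.1
    (NumberField.InfinitePlace.IsPrimitiveRoot.nrRealPlaces_eq_zero_of_two_lt (by norm_num) hz)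
  refine ⟨max 1 (((U.index : ℝ) * ((U.index : ℝ) - 1)) / 2),
    zero_le_one.trans (le_max_left _ _), fun g hg => ?_, fun H _ _ ph hs hker => ?_⟩
  · have hne : g ≠ 1 := fun h => hg (by rw [h]; exact Subgroup.one_mem _)
    have h3 : Spec.indG G ≤ Spec.ind (g : Equiv.Perm (Fin n)) := hmin g hne
    have h4 : Spec.indG G ≠ Spec.ind (g : Equiv.Perm (Fin n)) := fun h =>
      hg (Subgroup.subset_closure ⟨hne, h.symm⟩)
    have h5 := hr g hg
    have h6 : ((U.index * (U.index - 1) * Spec.indG G : ℕ) : ℝ) <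
        ((2 * Spec.ind (g : Equiv.Perm (Fin n)) : ℕ) : ℝ) := by exact_mod_cast h5
    rw [Nat.cast_mul, Nat.cast_mul, Nat.cast_mul, Nat.cast_sub hU1] at h6
    push_cast at h6
    rcases max_choice (1 : ℝ) (((U.index : ℝ) * ((U.index : ℝ) - 1)) / 2) with h7 | h7
    · rw [h7, one_mul]
      exact_mod_cast lt_of_le_of_ne h3 h4
    · rw [h7]
      linarith
  · exact rbs_quo ph hs j U (by rw [hker]; exact h1) h2

end H67.HS
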